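import Mathlib

/-! MP_1ad17e_al: Sylow 2-subgroups of subgroups, dihedral arguments modulo a subgroup. -/

set_option autoImplicit false

namespace E1adH58

open Subgroup
open scoped Pointwise

variable {G : Type*} [Group G]

/-- maximal 2-subgroup of `N` -/
def MaxTwo (N U : Subgroup G) : Prop :=
  U ≤ N ∧ IsPGroup 2 U ∧ ∀ E : Subgroup G, E ≤ N → IsPGroup 2 E → U ≤ E → E ≤ U

theorem isPGroup_mono {A B : Subgroup G} (h : A ≤ B) (hB : IsPGroup 2 B) : IsPGroup 2 A :=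
  hB.to_le h

theorem isPGroup_subgroupOf {U N : Subgroup G} (h : IsPGroup 2 U) : IsPGroup 2 (U.subgroupOf N) :=
  h.comap_of_injective N.subtype N.subtype_injective

theorem maxTwo_of_sylow {N : Subgroup G} (P : Sylow 2 N) :
    MaxTwo N ((P : Subgroup N).map N.subtype) := by
  refine ⟨map_subtype_le _, P.isPGroup'.map _, ?_⟩
  intro E hE h2 hPE
  have h1 : (P : Subgroup N) ≤ E.subgroupOf N := by
    intro x hx
    rw [mem_subgroupOf]
    exact hPE ⟨x, hx, rfl⟩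
  have h3 := P.is_maximal' (isPGroup_subgroupOf h2) h1
  intro x hx
  have h4 : (⟨x, hE hx⟩ : N) ∈ E.subgroupOf N := by
    rw [mem_subgroupOf]; exact hx
  rw [h3] at h4
  exact ⟨⟨x, hE hx⟩, h4, rfl⟩

theorem sylow_of_maxTwo {N U : Subgroup G} (h : MaxTwo N U) :
    ∃ P : Sylow 2 N, U = (P : Subgroup N).map N.subtype := by
  obtain ⟨hUN, h2, hmax⟩ := h
  refine ⟨⟨U.subgroupOf N, isPGroup_subgroupOf h2, ?_⟩, ?_⟩
  · intro Q hQ hle
    have h1 : Q.map N.subtype ≤ U := by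
      apply hmax _ (map_subtype_le _) (hQ.map _)
      intro x hx
      exact ⟨⟨x, hUN hx⟩, hle (by rw [mem_subgroupOf]; exact hx), rfl⟩
    apply le_antisymm _ hle
    intro x hx
    rw [mem_subgroupOf]
    exact h1 ⟨x, hx, rfl⟩
  · exact (map_subgroupOf_eq_of_le hUN).symm

theorem maxTwo_exists {N E : Subgroup G} (hE : E ≤ N) (h2 : IsPGroup 2 E) :
    ∃ U, MaxTwo N U ∧ E ≤ U := by
  obtain ⟨P, hP⟩ := (isPGroup_subgroupOf (N := N) h2).exists_le_sylow
  refine ⟨_, maxTwo_of_sylow P, ?_⟩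
  intro x hx
  exact ⟨⟨x, hE hx⟩, hP (by rw [mem_subgroupOf]; exact hx), rfl⟩

theorem maxTwo_conj [Finite G] {N U V : Subgroup G} (hU : MaxTwo N U) (hV : MaxTwo N V) :
    ∃ g ∈ N, ∀ x, x ∈ V ↔ g⁻¹ * x * g ∈ U := by
  obtain ⟨P, hP⟩ := sylow_of_maxTwo hU
  obtain ⟨Q, hQ⟩ := sylow_of_maxTwo hV
  obtain ⟨g, hg⟩ := MulAction.exists_smul_eq N P Q
  refine ⟨g, g.2, ?_⟩
  intro x
  have key : ∀ y : N, y ∈ (Q : Subgroup N) ↔ g⁻¹ * y * g ∈ (P : Subgroup N) := by
    intro y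
    rw [← hg, Sylow.coe_subgroup_smul, mem_pointwise_smul_iff_inv_smul_mem]
    have e1 : ((MulAut.conj g)⁻¹ • y : N) = g⁻¹ * y * g := by
      rw [← map_inv]
      simp
    rw [e1]
  constructor
  · intro hx
    rw [hQ] at hx
    obtain ⟨y, hy, rfl⟩ := hx
    rw [hP]
    exact ⟨g⁻¹ * y * g, (key y).1 hy, rfl⟩
  · intro hx
    have hxN : x ∈ N := by
      have h1 := N.mul_mem (N.mul_mem g.2 (hU.1 hx)) (N.inv_mem g.2)
      have h2 : (g : G) * ((g : G)⁻¹ * x * g) * (g : G)⁻¹ = x := by group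
      rwa [h2] at h1
    rw [hP] at hx
    obtain ⟨y, hy, hyx⟩ := hx
    have h3 : y = g⁻¹ * ⟨x, hxN⟩ * g := by
      apply Subtype.ext
      exact hyx
    rw [h3] at hy
    rw [hQ]
    exact ⟨⟨x, hxN⟩, (key _).2 hy, rfl⟩

/-- conjugate subgroup `g U g⁻¹` -/
def cj (g : G) (U : Subgroup G) : Subgroup G := U.map (MulAut.conj g).toMonoidHom

theorem mem_cj {g x : G} {U : Subgroup G} : x ∈ cj g U ↔ g⁻¹ * x * g ∈ U := by
  unfold cj
  constructor
  · rintro ⟨y, hy, rfl⟩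
    have : g⁻¹ * ((MulAut.conj g).toMonoidHom y) * g = y := by simp [mul_assoc]
    rw [this]
    exact hy
  · intro h
    refine ⟨_, h, ?_⟩
    simp [mul_assoc]

theorem card_cj (g : G) (U : Subgroup G) : Nat.card (cj g U) = Nat.card U :=
  Subgroup.card_map_of_injective (MulAut.conj g).injective

theorem isPGroup_cj {g : G} {U : Subgroup G} (h : IsPGroup 2 U) : IsPGroup 2 (cj g U) :=
  h.map _

theorem maxTwo_conj' [Finite G] {N U V : Subgroup G} (hU : MaxTwo N U) (hV : MaxTwo N V) :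
    ∃ g ∈ N, V = cj g U := by
  obtain ⟨g, hg, h⟩ := maxTwo_conj hU hV
  refine ⟨g, hg, ?_⟩
  ext x
  rw [mem_cj]
  exact h x

/-- every 2-subgroup of `N` is, up to conjugation in `N`, contained in `U`. -/
theorem exists_cj_le [Finite G] {N U E : Subgroup G} (hU : MaxTwo N U) (hE : E ≤ N)
    (h2 : IsPGroup 2 E) : ∃ g ∈ N, E ≤ cj g U := by
  obtain ⟨V, hV, hEV⟩ := maxTwo_exists hE h2
  obtain ⟨g, hg, h⟩ := maxTwo_conj' hU hV
  exact ⟨g, hg, h ▸ hEV⟩

theorem card_le_of_maxTwo [Finite G] {N U E : Subgroup G} (hU : MaxTwo N U) (hE : E ≤ N)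
    (h2 : IsPGroup 2 E) : Nat.card E ≤ Nat.card U := by
  obtain ⟨g, _, h⟩ := exists_cj_le hU hE h2
  rw [← card_cj g U]
  exact Subgroup.card_le_of_le h

theorem maxTwo_of_card [Finite G] {N U V : Subgroup G} (hV : MaxTwo N V) (hU : U ≤ N)
    (h2 : IsPGroup 2 U) (hc : Nat.card V ≤ Nat.card U) : MaxTwo N U := by
  refine ⟨hU, h2, ?_⟩
  intro E hE hE2 hUE
  have h1 := card_le_of_maxTwo hV hE hE2
  have h3 : U = E := Subgroup.eq_of_le_of_card_ge hUE (h1.trans hc)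
  exact h3.ge

/-- a 2-group modulo an element with square inside -/
theorem isPGroup_sup_zpowers [Finite G] {D : Subgroup G} (hD : IsPGroup 2 D) {s : G}
    (hs : ∀ z ∈ D, s * z * s⁻¹ ∈ D) (hs2 : s * s ∈ D) : IsPGroup 2 (D ⊔ zpowers s : Subgroup G) := by
  have h1 : IsPGroup 2 (zpowers s) := by
    obtain ⟨m, hm⟩ := hD ⟨s * s, hs2⟩
    have hm' : (s * s) ^ (2 ^ m) = 1 := by
      have := congrArg (Subtype.val) hm
      simpa using this
    have h3 : s ^ (2 ^ (m + 1)) = 1 := by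
      rw [pow_succ', pow_mul, pow_two]
      exact hm'
    rintro ⟨x, hx⟩
    obtain ⟨i, rfl⟩ := mem_zpowers_iff.1 hx
    refine ⟨m + 1, ?_⟩
    apply Subtype.ext
    show (s ^ i) ^ (2 ^ (m + 1)) = 1
    rw [← zpow_natCast, ← zpow_mul, mul_comm, zpow_mul, zpow_natCast, h3, one_zpow]
  have h2 : zpowers s ≤ Subgroup.normalizer (D : Set G) := by
    rw [zpowers_le]
    rw [mem_normalizer_iff]
    intro z
    constructor
    · exact hs z
    · intro h
      have hfin : ∀ j : ℕ, ∀ z ∈ D, s ^ j * z * (s ^ j)⁻¹ ∈ D := by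
        intro j
        induction j with
        | zero => intro z hz; simpa using hz
        | succ j ih =>
          intro z hz
          have h5 := hs _ (ih z hz)
          have h6 : s * (s ^ j * z * (s ^ j)⁻¹) * s⁻¹ = s ^ (j + 1) * z * (s ^ (j + 1))⁻¹ := by
            rw [pow_succ']; group
          rwa [h6] at h5
      have h7 : s⁻¹ = s ^ (orderOf s - 1) := by
        rw [inv_eq_iff_mul_eq_one, ← pow_succ']
        have : orderOf s - 1 + 1 = orderOf s := Nat.sub_add_cancel (orderOf_pos s)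
        rw [this, pow_orderOf_eq_one]
      have h8 := hfin (orderOf s - 1) _ h
      rw [← h7] at h8
      have h9 : s⁻¹ * (s * z * s⁻¹) * (s⁻¹)⁻¹ = z := by group
      rwa [h9] at h8
  rw [sup_comm]
  exact h1.to_sup_of_normal_right' hD h2

/-- normalisers grow -/
theorem exists_normalizing [Finite G] {D U : Subgroup G} (hU : IsPGroup 2 U) (hDU : D < U) :
    ∃ s ∈ U, s ∉ D ∧ s * s ∈ D ∧ (∀ z, z ∈ D ↔ s * z * s⁻¹ ∈ D) := by
  have : Fact (Nat.Prime 2) := ⟨Nat.prime_two⟩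
  have hnil : Group.IsNilpotent U := hU.isNilpotent
  have hnc : NormalizerCondition U := Group.normalizerCondition_of_isNilpotent
  have hlt : D.subgroupOf U < ⊤ := by
    rw [lt_top_iff_ne_top]
    intro h
    rw [subgroupOf_eq_top] at h
    exact absurd h (not_le_of_gt hDU)
  have h1 := hnc _ hlt
  obtain ⟨M, hM⟩ : ∃ M, M = Subgroup.normalizer ((D.subgroupOf U : Subgroup U) : Set U) := ⟨_, rfl⟩
  rw [← hM] at h1
  obtain ⟨g, hgM, hgD⟩ := SetLike.exists_of_lt h1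
  -- powers of `g` : take the last one outside `D`
  obtain ⟨m, hm⟩ := hU g
  have hex : ∃ j : ℕ, g ^ (2 ^ j) ∈ D.subgroupOf U := ⟨m, by rw [hm]; exact one_mem _⟩
  classical
  have hmin := Nat.find_spec hex
  have hpos : Nat.find hex ≠ 0 := by
    intro h0
    rw [h0, pow_zero, pow_one] at hmin
    exact hgD hmin
  obtain ⟨j, hj⟩ := Nat.exists_eq_succ_of_ne_zero hpos
  have hnot : g ^ (2 ^ j) ∉ D.subgroupOf U := Nat.find_min hex (by omega)
  rw [hj] at hmin
  refine ⟨((g ^ (2 ^ j) : U) : G), (g ^ (2 ^ j) : U).2, ?_, ?_, ?_⟩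
  · rw [mem_subgroupOf] at hnot
    exact hnot
  · rw [mem_subgroupOf] at hmin
    have h2 : g ^ (2 ^ (j + 1)) = g ^ (2 ^ j) * g ^ (2 ^ j) := by
      rw [pow_succ, pow_mul, pow_two]
    rw [Nat.succ_eq_add_one, h2] at hmin
    exact hmin
  · intro z
    have h3 : g ^ (2 ^ j) ∈ M := M.pow_mem hgM _
    rw [hM, mem_normalizer_iff] at h3
    constructor
    · intro hz
      have h4 := (h3 ⟨z, hDU.le hz⟩).1 (by rw [mem_subgroupOf]; exact hz)
      rw [mem_subgroupOf] at h4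
      exact h4
    · intro hz
      have hzU : z ∈ U := by
        have h5 := U.mul_mem (U.mul_mem (U.inv_mem (g ^ (2 ^ j) : U).2) (hDU.le hz)) (g ^ (2 ^ j) : U).2
        have h6 : ((g ^ (2 ^ j) : U) : G)⁻¹ * (((g ^ (2 ^ j) : U) : G) * z * ((g ^ (2 ^ j) : U) : G)⁻¹) *
            ((g ^ (2 ^ j) : U) : G) = z := by group
        rwa [h6] at h5
      have h4 := (h3 ⟨z, hzU⟩).2 (by rw [mem_subgroupOf]; exact hz)
      rw [mem_subgroupOf] at h4
      exact h4

end E1adH58
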