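import Pool.Agent.Lib.MP_1ad17e_al_h58.SylG

/-! MP_1ad17e_al: dihedral arguments modulo a subgroup. -/

set_option autoImplicit false

namespace E1adH58

open Subgroup

section abstract

variable {Q : Type*} [Group Q] [Finite Q]

theorem dih_inv {a b : Q} (ha : a * a = 1) (hb : b * b = 1) (j : ℕ) :
    a * (a * b) ^ j * a = ((a * b) ^ j)⁻¹ := by
  have ha' : a⁻¹ = a := inv_eq_of_mul_eq_one_left ha
  have hb' : b⁻¹ = b := inv_eq_of_mul_eq_one_left hb
  have h1 : a * (a * b) ^ j * a⁻¹ = (a * (a * b) * a⁻¹) ^ j := by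
    rw [conj_pow]
  have h2 : a * (a * b) * a⁻¹ = (a * b)⁻¹ := by
    rw [mul_inv_rev, ha', hb', ← mul_assoc, ha, one_mul]
  calc a * (a * b) ^ j * a = a * (a * b) ^ j * a⁻¹ := by rw [ha']
    _ = ((a * b)⁻¹) ^ j := by rw [h1, h2]
    _ = ((a * b) ^ j)⁻¹ := by rw [inv_pow]

theorem dih_inv' {a b : Q} (ha : a * a = 1) (hb : b * b = 1) (j : ℕ) :
    b * (a * b) ^ j * b = ((a * b) ^ j)⁻¹ := by
  have ha' : a⁻¹ = a := inv_eq_of_mul_eq_one_left ha
  have hb' : b⁻¹ = b := inv_eq_of_mul_eq_one_left hb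
  have h1 : b * (a * b) ^ j * b⁻¹ = (b * (a * b) * b⁻¹) ^ j := by
    rw [conj_pow]
  have h2 : b * (a * b) * b⁻¹ = (a * b)⁻¹ := by
    rw [mul_inv_rev, ha', hb', mul_assoc, mul_assoc, hb, mul_one]
  calc b * (a * b) ^ j * b = b * (a * b) ^ j * b⁻¹ := by rw [hb']
    _ = ((a * b)⁻¹) ^ j := by rw [h1, h2]
    _ = ((a * b) ^ j)⁻¹ := by rw [inv_pow]

/-- the dihedral alternative -/
theorem dih_alt {a b : Q} (ha : a * a = 1) (hb : b * b = 1) :
    (∃ e : ℕ, (a * b) ^ e ≠ 1 ∧ (a * b) ^ e * (a * b) ^ e = 1 ∧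
      (a * b) ^ e * a = a * (a * b) ^ e ∧ (a * b) ^ e * b = b * (a * b) ^ e) ∨
    (Odd (orderOf (a * b)) ∧ ∃ e : ℕ, (a * b) ^ e * a * ((a * b) ^ e)⁻¹ = b) := by
  have hpos : 0 < orderOf (a * b) := orderOf_pos _
  rcases Nat.even_or_odd (orderOf (a * b)) with he | ho
  · left
    obtain ⟨h, hh⟩ := he
    refine ⟨h, ?_, ?_, ?_, ?_⟩
    · intro h1
      have := orderOf_dvd_of_pow_eq_one h1
      have := Nat.le_of_dvd (by omega) this
      omega
    · rw [← pow_add, ← hh, pow_orderOf_eq_one]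
    · have h2 : (a * b) ^ h * (a * b) ^ h = 1 := by rw [← pow_add, ← hh, pow_orderOf_eq_one]
      have h3 : ((a * b) ^ h)⁻¹ = (a * b) ^ h := inv_eq_of_mul_eq_one_left h2
      have h4 := dih_inv ha hb h
      rw [h3] at h4
      calc (a * b) ^ h * a = a * (a * b) ^ h * a * a := by rw [h4]
        _ = a * (a * b) ^ h := by rw [mul_assoc _ a a, ha, mul_one]
    · have h2 : (a * b) ^ h * (a * b) ^ h = 1 := by rw [← pow_add, ← hh, pow_orderOf_eq_one]
      have h3 : ((a * b) ^ h)⁻¹ = (a * b) ^ h := inv_eq_of_mul_eq_one_left h2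
      have h4 := dih_inv' ha hb h
      rw [h3] at h4
      calc (a * b) ^ h * b = b * (a * b) ^ h * b * b := by rw [h4]
        _ = b * (a * b) ^ h := by rw [mul_assoc _ b b, hb, mul_one]
  · right
    refine ⟨ho, ?_⟩
    obtain ⟨h, hh⟩ := ho
    refine ⟨h, ?_⟩
    -- `ρ^h a ρ^{-h} = ρ^{2h} a = ρ^{-1} a = b`
    have h1 : a * ((a * b) ^ h)⁻¹ = (a * b) ^ h * a := by
      have h4 := dih_inv ha hb h
      rw [← h4]
      calc a * (a * (a * b) ^ h * a) = (a * a) * (a * b) ^ h * a := by simp only [mul_assoc]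
        _ = (a * b) ^ h * a := by rw [ha, one_mul]
    have h2 : (a * b) ^ h * (a * b) ^ h * (a * b) = 1 := by
      have : (a * b) ^ (2 * h + 1) = 1 := by rw [← hh, pow_orderOf_eq_one]
      rw [← pow_add, ← pow_succ, ← two_mul]
      exact this
    have h3 : (a * b) ^ h * (a * b) ^ h = (a * b)⁻¹ := eq_inv_of_mul_eq_one_left h2
    have ha' : a⁻¹ = a := inv_eq_of_mul_eq_one_left ha
    have hb' : b⁻¹ = b := inv_eq_of_mul_eq_one_left hb
    calc (a * b) ^ h * a * ((a * b) ^ h)⁻¹ = (a * b) ^ h * (a * ((a * b) ^ h)⁻¹) := by rw [mul_assoc]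
      _ = (a * b) ^ h * (a * b) ^ h * a := by rw [h1, mul_assoc]
      _ = (a * b)⁻¹ * a := by rw [h3]
      _ = b := by rw [mul_inv_rev, ha', hb', mul_assoc, ha, mul_one]

/-- For two involutions `v`, `w` some involution `b` of the dihedral group conjugates `w` into a common
2-group with `v`. -/
theorem dih_swap {v w : Q} (hv : v * v = 1) (hw : w * w = 1) :
    ∃ a : ℕ, ∃ b : Q, b = w * (v * w) ^ a ∧ b * b = 1 ∧
      IsPGroup 2 (closure ({v, b * w * b⁻¹} : Set Q)) := by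
  have hpos : 0 < orderOf (v * w) := orderOf_pos _
  obtain ⟨e, o, ho, heo⟩ := Nat.exists_eq_two_pow_mul_odd hpos.ne'
  obtain ⟨h, hh⟩ := ho
  have hv' : v⁻¹ = v := inv_eq_of_mul_eq_one_left hv
  have hw' : w⁻¹ = w := inv_eq_of_mul_eq_one_left hw
  -- `b = w ρ^h`
  have hb2 : (w * (v * w) ^ h) * (w * (v * w) ^ h) = 1 := by
    have h4 := dih_inv' hv hw h
    calc (w * (v * w) ^ h) * (w * (v * w) ^ h) = (w * (v * w) ^ h * w) * (v * w) ^ h := by
          simp only [mul_assoc]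
      _ = 1 := by rw [h4, inv_mul_cancel]
  refine ⟨h, w * (v * w) ^ h, rfl, hb2, ?_⟩
  have hbinv : (w * (v * w) ^ h)⁻¹ = w * (v * w) ^ h := inv_eq_of_mul_eq_one_left hb2
  -- `b w b⁻¹ = ρ^{-2h} w`, so `v * (b w b⁻¹) = ρ^{±o}`
  have h5 : w * (v * w) ^ h * w * (w * (v * w) ^ h)⁻¹ = ((v * w) ^ h)⁻¹ * w * (v * w) ^ h := by
    rw [dih_inv' hv hw h, hbinv]
    simp only [mul_assoc]
  have h6 : ((v * w) ^ h)⁻¹ * w = w * (v * w) ^ h := by
    rw [← dih_inv' hv hw h, mul_assoc, hw, mul_one]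
  have h7 : v * (w * (v * w) ^ h * w * (w * (v * w) ^ h)⁻¹) = (v * w) ^ o := by
    rw [h5, h6]
    calc v * (w * (v * w) ^ h * (v * w) ^ h) = (v * w) * (v * w) ^ h * (v * w) ^ h := by
          simp only [mul_assoc]
      _ = (v * w) ^ o := by
          rw [hh, ← pow_succ', ← pow_add]
          congr 1
          omega
  obtain ⟨w', hwd⟩ : ∃ w', w' = w * (v * w) ^ h * w * (w * (v * w) ^ h)⁻¹ := ⟨_, rfl⟩
  rw [← hwd] at h7 ⊢
  have hw2 : w' * w' = 1 := by
    rw [hwd]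
    calc w * (v * w) ^ h * w * (w * (v * w) ^ h)⁻¹ * (w * (v * w) ^ h * w * (w * (v * w) ^ h)⁻¹)
        = w * (v * w) ^ h * (w * w) * (w * (v * w) ^ h)⁻¹ := by group
      _ = 1 := by rw [hw, mul_one, mul_inv_cancel]
  -- `D = ⟨ρ^o⟩`
  have hD : IsPGroup 2 (zpowers (v * w')) := by
    rintro ⟨x, hx⟩
    obtain ⟨i, rfl⟩ := mem_zpowers_iff.1 hx
    refine ⟨e, ?_⟩
    apply Subtype.ext
    show ((v * w') ^ i) ^ (2 ^ e) = 1
    have h8 : (v * w') ^ (2 ^ e) = 1 := by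
      rw [h7, ← pow_mul, mul_comm o, ← heo, pow_orderOf_eq_one]
    rw [← zpow_natCast, ← zpow_mul, mul_comm, zpow_mul, zpow_natCast, h8, one_zpow]
  have hvn : ∀ z ∈ zpowers (v * w'), v * z * v⁻¹ ∈ zpowers (v * w') := by
    intro z hz
    obtain ⟨i, rfl⟩ := mem_zpowers_iff.1 hz
    have h9 : v * (v * w') ^ i * v⁻¹ = (v * (v * w') * v⁻¹) ^ i := by rw [conj_zpow]
    have h10 : v * (v * w') * v⁻¹ = (v * w')⁻¹ := by
      have hw2' : w'⁻¹ = w' := inv_eq_of_mul_eq_one_left hw2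
      rw [mul_inv_rev, hv', hw2', ← mul_assoc, hv, one_mul]
    rw [h9, h10, inv_zpow]
    exact inv_mem (zpow_mem (mem_zpowers _) i)
  have hfin := isPGroup_sup_zpowers hD hvn (by rw [hv]; exact one_mem _)
  refine hfin.to_le ?_
  rw [closure_le]
  intro x hx
  rcases hx with rfl | hx
  · exact (le_sup_right : zpowers x ≤ _) (mem_zpowers x)
  · have hx' : x = w' := hx
    rw [hx']
    have h11 : w' = v * (v * w') := by rw [← mul_assoc, hv, one_mul]
    have h12 : v * (v * w') ∈ (zpowers (v * w') ⊔ zpowers v : Subgroup Q) :=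
      mul_mem ((le_sup_right : zpowers v ≤ _) (mem_zpowers v))
        ((le_sup_left : zpowers (v * w') ≤ _) (mem_zpowers _))
    rw [← h11] at h12
    exact h12

end abstract

variable {G : Type*} [Group G] [Finite G]

/-- in a finite group `g D g⁻¹ ≤ D` is enough -/
theorem mem_normalizer_of {D : Subgroup G} {s : G} (hs : ∀ z ∈ D, s * z * s⁻¹ ∈ D) :
    s ∈ Subgroup.normalizer (D : Set G) := by
  rw [mem_normalizer_iff]
  intro z
  constructor
  · exact hs z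
  · intro h
    have hfin : ∀ j : ℕ, ∀ z ∈ D, s ^ j * z * (s ^ j)⁻¹ ∈ D := by
      intro j
      induction j with
      | zero => intro z hz; simpa using hz
      | succ j ih =>
        intro z hz
        have h5 := hs _ (ih z hz)
        have h6 : s * (s ^ j * z * (s ^ j)⁻¹) * s⁻¹ = s ^ (j + 1) * z * (s ^ (j + 1))⁻¹ := by
          rw [pow_succ']; group
        rwa [h6] at h5
    have h7 : s⁻¹ = s ^ (orderOf s - 1) := by
      rw [inv_eq_iff_mul_eq_one, ← pow_succ']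
      have : orderOf s - 1 + 1 = orderOf s := Nat.sub_add_cancel (orderOf_pos s)
      rw [this, pow_orderOf_eq_one]
    have h8 := hfin (orderOf s - 1) _ h
    rw [← h7] at h8
    have h9 : s⁻¹ * (s * z * s⁻¹) * (s⁻¹)⁻¹ = z := by group
    rwa [h9] at h8

/-- the dihedral alternative modulo `D`: `s`, `t` normalise `D`, squares in `D`. Either some power `z`
of `s t` is not in `D`, has its square in `D`, and commutes with `s` and `t` modulo `D`; or `s t` has
odd order modulo `D` and `s` is conjugate to `t` modulo `D` by a power of `s t`. -/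
theorem dih_mod {D : Subgroup G} {s t : G} (hs : ∀ z ∈ D, s * z * s⁻¹ ∈ D)
    (ht : ∀ z ∈ D, t * z * t⁻¹ ∈ D) (hs2 : s * s ∈ D) (ht2 : t * t ∈ D) :
    (∃ e : ℕ, (s * t) ^ e ∉ D ∧ (s * t) ^ e * (s * t) ^ e ∈ D ∧
      (s * t) ^ e * s * ((s * t) ^ e)⁻¹ * s⁻¹ ∈ D ∧ (s * t) ^ e * t * ((s * t) ^ e)⁻¹ * t⁻¹ ∈ D) ∨
    ((∃ o : ℕ, Odd o ∧ (s * t) ^ o ∈ D) ∧
      ∃ e : ℕ, (s * t) ^ e * s * ((s * t) ^ e)⁻¹ * t⁻¹ ∈ D) := by
  obtain ⟨M, hM⟩ : ∃ M, M = Subgroup.normalizer (D : Set G) := ⟨_, rfl⟩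
  have hsM : s ∈ M := hM ▸ mem_normalizer_of hs
  have htM : t ∈ M := hM ▸ mem_normalizer_of ht
  have hn : (D.subgroupOf M).Normal := by
    rw [hM]
    exact Subgroup.normal_in_normalizer
  obtain ⟨s', hs'⟩ : ∃ s' : M, s' = ⟨s, hsM⟩ := ⟨_, rfl⟩
  obtain ⟨t', ht'⟩ : ∃ t' : M, t' = ⟨t, htM⟩ := ⟨_, rfl⟩
  have hcs : (s' : G) = s := by rw [hs']
  have hct : (t' : G) = t := by rw [ht']
  have hone : ∀ x : M, (QuotientGroup.mk' (D.subgroupOf M) x = 1) ↔ (x : G) ∈ D := by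
    intro x
    rw [QuotientGroup.mk'_apply, QuotientGroup.eq_one_iff, mem_subgroupOf]
  have ha : QuotientGroup.mk' (D.subgroupOf M) s' * QuotientGroup.mk' (D.subgroupOf M) s' = 1 := by
    rw [← map_mul, hone, Subgroup.coe_mul, hcs]
    exact hs2
  have hb : QuotientGroup.mk' (D.subgroupOf M) t' * QuotientGroup.mk' (D.subgroupOf M) t' = 1 := by
    rw [← map_mul, hone, Subgroup.coe_mul, hct]
    exact ht2
  rcases dih_alt ha hb with ⟨e, h1, h2, h3, h4⟩ | ⟨ho, e, h1⟩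
  · left
    refine ⟨e, ?_, ?_, ?_, ?_⟩
    · intro h
      apply h1
      rw [← map_mul, ← map_pow, hone]
      simpa [hcs, hct] using h
    · rw [← map_mul, ← map_pow, ← map_mul, hone] at h2
      simpa [hcs, hct] using h2
    · have h5 : QuotientGroup.mk' (D.subgroupOf M) ((s' * t') ^ e * s' * ((s' * t') ^ e)⁻¹ * s'⁻¹) = 1 := by
        simp only [map_mul, map_pow, map_inv] at h3 ⊢
        rw [h3]
        group
      rw [hone] at h5
      simpa [hcs, hct] using h5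
    · have h5 : QuotientGroup.mk' (D.subgroupOf M) ((s' * t') ^ e * t' * ((s' * t') ^ e)⁻¹ * t'⁻¹) = 1 := by
        simp only [map_mul, map_pow, map_inv] at h4 ⊢
        rw [h4]
        group
      rw [hone] at h5
      simpa [hcs, hct] using h5
  · right
    refine ⟨⟨_, ho, ?_⟩, e, ?_⟩
    · have h5 := pow_orderOf_eq_one (QuotientGroup.mk' (D.subgroupOf M) s' * QuotientGroup.mk' (D.subgroupOf M) t')
      generalize hoo : orderOf (QuotientGroup.mk' (D.subgroupOf M) s' *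
        QuotientGroup.mk' (D.subgroupOf M) t') = oo at h5 ⊢
      rw [← map_mul, ← map_pow, hone] at h5
      simpa [hcs, hct] using h5
    · have h5 : QuotientGroup.mk' (D.subgroupOf M) ((s' * t') ^ e * s' * ((s' * t') ^ e)⁻¹ * t'⁻¹) = 1 := by
        simp only [map_mul, map_pow, map_inv] at h1 ⊢
        rw [h1]
        group
      rw [hone] at h5
      simpa [hcs, hct] using h5

end E1adH58
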