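import Pool.Agent.Lib.MP_1ad17e_al_h58.Sec3

/-! MP_1ad17e_al: section 3 of the paper, (3.5)-(3.8). -/

set_option autoImplicit false

namespace E1adH58

open Subgroup

variable {G : Type*} [Group G]

/-- the group `J⟨b⟩` -/
def extInv (J : Subgroup G) (b : G) (hb : b * b = 1) (hJ : ∀ x ∈ J, b * x * b⁻¹ ∈ J) : Subgroup G where
  carrier := {x | x ∈ J ∨ x * b ∈ J}
  one_mem' := Or.inl (one_mem _)
  mul_mem' := by
    have hbi : b⁻¹ = b := inv_eq_of_mul_eq_one_left hb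
    rintro x y (hx | hx) (hy | hy)
    · exact Or.inl (mul_mem hx hy)
    · right
      rw [mul_assoc]
      exact mul_mem hx hy
    · right
      have h1 := mul_mem hx (hJ y hy)
      have e : x * b * (b * y * b⁻¹) = x * y * b := by
        rw [hbi]
        calc x * b * (b * y * b) = x * (b * b) * y * b := by group
          _ = x * y * b := by rw [hb, mul_one]
      rwa [e] at h1
    · left
      have h1 := mul_mem hx (hJ _ hy)
      have e : x * b * (b * (y * b) * b⁻¹) = x * y := by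
        calc x * b * (b * (y * b) * b⁻¹) = x * (b * b) * y := by group
          _ = x * y := by rw [hb, mul_one]
      rwa [e] at h1
  inv_mem' := by
    have hbi : b⁻¹ = b := inv_eq_of_mul_eq_one_left hb
    rintro x (hx | hx)
    · exact Or.inl (inv_mem hx)
    · right
      have h1 := hJ _ (inv_mem hx)
      have e : b * (x * b)⁻¹ * b⁻¹ = x⁻¹ * b := by
        calc b * (x * b)⁻¹ * b⁻¹ = x⁻¹ * b⁻¹ := by group
          _ = x⁻¹ * b := by rw [hbi]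
      rwa [e] at h1

/-- an involution normalising `J` normalises, up to conjugation in `J`, a given Sylow 2-subgroup of
`J`. -/
theorem exists_conj_normalizing [Finite G] {J D : Subgroup G} {b : G} (hb : b * b = 1)
    (hJ : ∀ x ∈ J, b * x * b⁻¹ ∈ J) (hD : MaxTwo J D) :
    ∃ h ∈ J, h * b * h⁻¹ ∈ normalizer (D : Set G) := by
  have hbi : b⁻¹ = b := inv_eq_of_mul_eq_one_left hb
  obtain ⟨K, hK⟩ : ∃ K, K = extInv J b hb hJ := ⟨_, rfl⟩
  have hmem : ∀ x, x ∈ K ↔ x ∈ J ∨ x * b ∈ J := by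
    intro x
    rw [hK]
    exact Iff.rfl
  have hbK : b ∈ K := by
    rw [hmem, hb]
    exact Or.inr (one_mem _)
  have hJK : J ≤ K := by
    intro x hx
    rw [hmem]
    exact Or.inl hx
  obtain ⟨S, hS, hbS'⟩ := maxTwo_exists (N := K) (E := zpowers b) (by rwa [zpowers_le])
    (isPGroup_zpowers_of_sq hb)
  have hbS : b ∈ S := hbS' (mem_zpowers b)
  have hcS : ∀ c ∈ K, ∃ j ∈ J, cj c S = cj j S := by
    intro c hc
    rcases (hmem c).1 hc with h | h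
    · exact ⟨c, h, rfl⟩
    · refine ⟨c * b, h, ?_⟩
      ext x
      rw [mem_cj, mem_cj]
      have e : (c * b)⁻¹ * x * (c * b) = b⁻¹ * (c⁻¹ * x * c) * b := by group
      rw [e]
      constructor
      · intro hx
        exact mul_mem (mul_mem (inv_mem hbS) hx) hbS
      · intro hx
        have h1 := mul_mem (mul_mem hbS hx) (inv_mem hbS)
        have e2 : b * (b⁻¹ * (c⁻¹ * x * c) * b) * b⁻¹ = c⁻¹ * x * c := by group
        rwa [e2] at h1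
  have hE : MaxTwo J (S ⊓ J) := by
    obtain ⟨c, hc, hle⟩ := exists_cj_le hS (hD.1.trans hJK) hD.2.1
    obtain ⟨j, hj, hcj⟩ := hcS c hc
    rw [hcj] at hle
    have h1 : cj j⁻¹ D ≤ S ⊓ J := by
      intro x hx
      rw [mem_cj] at hx
      have h2 := hle hx
      rw [mem_cj] at h2
      have e : j⁻¹ * (j⁻¹⁻¹ * x * j⁻¹) * j = x := by group
      rw [e] at h2
      refine ⟨h2, ?_⟩
      have h3 := mul_mem (mul_mem (inv_mem hj) (hD.1 hx)) hj
      rwa [e] at h3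
    have h4 := Subgroup.card_le_of_le h1
    rw [card_cj] at h4
    exact maxTwo_of_card hD inf_le_right (hS.2.1.to_le inf_le_left) h4
  obtain ⟨h, hh, hDh⟩ := maxTwo_conj' hE hD
  refine ⟨h, hh, ?_⟩
  apply mem_normalizer_of
  intro z hz
  rw [hDh, mem_cj] at hz ⊢
  have e : h⁻¹ * (h * b * h⁻¹ * z * (h * b * h⁻¹)⁻¹) * h = b * (h⁻¹ * z * h) * b⁻¹ := by group
  rw [e]
  exact ⟨S.mul_mem (S.mul_mem hbS hz.1) (S.inv_mem hbS), hJ _ hz.2⟩

variable [Finite G] {N W : Subgroup G} {Sig : Set G}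

namespace MaxTrip

variable {xm : ℕ} {y0 : G} {Fm : Set G} {D : Subgroup G}

/-- (3.5) -/
theorem s35 (h : Ctx N W Sig) (t : MaxTrip N W Sig xm y0 Fm D) :
    ∃ b ∈ normalizer (D : Set G), b * b = 1 ∧ b ∉ W := by
  obtain ⟨hy, hFm, hyF, hD2, hWD, hDF, hc, Fp, hFp, hDFp, hyFp⟩ := t.trip
  obtain ⟨Up, hUp, hFUp, hDUp, v, hvU, hv2, hvW⟩ := t.exists_U h hFp hDFp
  obtain ⟨Um, hUm, hFUm, hDUm, w, hwU, hw2, hwW⟩ := t.exists_U h hFm hDF
  have hFv : FixS Sig v = Fp := by rw [h.Fix_eq hUp hvU hv2 hvW, ← hFUp]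
  have hFw : FixS Sig w = Fm := by rw [h.Fix_eq hUm hwU hw2 hwW, ← hFUm]
  obtain ⟨a, b, hbdef, hb2, hbp⟩ := dih_swap hv2 hw2
  have hvN : v ∈ N := hUp.1 hvU
  have hwN : w ∈ N := hUm.1 hwU
  have hbN : b ∈ N := by
    rw [hbdef]
    exact mul_mem hwN (pow_mem (mul_mem hvN hwN) a)
  have hbi : b⁻¹ = b := inv_eq_of_mul_eq_one_left hb2
  have hw'2 : b * w * b⁻¹ * (b * w * b⁻¹) = 1 := by
    have e : b * w * b⁻¹ * (b * w * b⁻¹) = b * (w * w) * b⁻¹ := by group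
    rw [e, hw2]; group
  have hw'W : b * w * b⁻¹ ∉ W := by
    rw [← h.W_conj_iff hbN]
    exact hwW
  have hcl : closure ({v, b * w * b⁻¹} : Set G) ≤ N := by
    rw [closure_le]
    rintro x (rfl | hx)
    · exact hvN
    · have hx' : x = b * w * b⁻¹ := hx
      rw [hx']
      exact N.mul_mem (N.mul_mem hbN hwN) (N.inv_mem hbN)
  obtain ⟨U, hU, hclU⟩ := maxTwo_exists hcl hbp
  have hvU' : v ∈ U := hclU (subset_closure (by simp))
  have hwU' : b * w * b⁻¹ ∈ U := hclU (subset_closure (by simp))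
  have hFF : FixS Sig v = FixS Sig (b * w * b⁻¹) := by
    rw [h.Fix_eq hU hvU' hv2 hvW, h.Fix_eq hU hwU' hw'2 hw'W]
  -- `b` swaps
  have hsw : ∀ y, y ∈ Fp ↔ b * y * b⁻¹ ∈ Fm := by
    intro y
    have h1 := h.FixS_conj (g := b) (v := w) (y := b * y * b⁻¹) hbN
    have e : b * (b * y * b⁻¹) * b⁻¹ = y := by
      calc b * (b * y * b⁻¹) * b⁻¹ = (b * b) * y * (b * b)⁻¹ := by group
        _ = y := by rw [hb2]; group
    rw [e, ← hFF, hFv, hFw] at h1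
    exact h1
  have hsw' : ∀ y, y ∈ Fm ↔ b * y * b⁻¹ ∈ Fp := by
    intro y
    rw [hsw (b * y * b⁻¹)]
    have e : b * (b * y * b⁻¹) * b⁻¹ = y := by
      calc b * (b * y * b⁻¹) * b⁻¹ = (b * b) * y * (b * b)⁻¹ := by group
        _ = y := by rw [hb2]; group
    rw [e]
  have hbW : b ∉ W := by
    intro hbW
    have h1 := (hsw y0).1 hyFp
    rw [h.W_triv hbW hy] at h1
    exact hyF h1
  obtain ⟨J, hJdef⟩ : ∃ J, J = StbS N Fp ⊓ StbS N Fm := ⟨_, rfl⟩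
  have hJN : J ≤ N := by
    rw [hJdef]
    exact inf_le_left.trans StbS_le
  have hgen : ∀ (A B : Set G), (∀ y, y ∈ A ↔ b * y * b⁻¹ ∈ B) → (∀ y, y ∈ B ↔ b * y * b⁻¹ ∈ A) →
      ∀ g, g ∈ StbS N B → b * g * b⁻¹ ∈ StbS N A := by
    intro A B hAB hBA g hg
    refine ⟨mul_mem (mul_mem hbN hg.1) (inv_mem hbN), fun y => ?_⟩
    have h1 := hAB (b * g * b⁻¹ * y * (b * g * b⁻¹)⁻¹)
    have e : b * (b * g * b⁻¹ * y * (b * g * b⁻¹)⁻¹) * b⁻¹ = g * (b * y * b⁻¹) * g⁻¹ := by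
      calc b * (b * g * b⁻¹ * y * (b * g * b⁻¹)⁻¹) * b⁻¹
          = (b * b) * g * b⁻¹ * y * b * g⁻¹ * (b * b)⁻¹ := by group
        _ = g * (b * y * b⁻¹) * g⁻¹ := by rw [hb2, hbi]; group
    rw [e, ← hg.2] at h1
    rw [h1]
    exact hAB y
  have hJb : ∀ x ∈ J, b * x * b⁻¹ ∈ J := by
    intro x hx
    rw [hJdef] at hx ⊢
    exact ⟨hgen Fp Fm hsw hsw' x hx.2, hgen Fm Fp hsw' hsw x hx.1⟩
  have hDJ : MaxTwo J D := by
    refine ⟨?_, hD2, ?_⟩
    · rw [hJdef]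
      exact le_inf hDFp hDF
    · intro E hE hE2 hDE
      by_contra hn
      have hlt : D < E := lt_of_le_of_ne hDE (fun he => hn he.ge)
      rw [hJdef] at hE
      exact hyF (t.s32 hE2 hlt hFm (hE.trans inf_le_right) ⟨Fp, hFp, hE.trans inf_le_left, hyFp⟩)
  obtain ⟨g, hg, hgn⟩ := exists_conj_normalizing hb2 hJb hDJ
  refine ⟨g * b * g⁻¹, hgn, ?_, ?_⟩
  · have e : g * b * g⁻¹ * (g * b * g⁻¹) = g * (b * b) * g⁻¹ := by group
    rw [e, hb2]; group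
  · rw [← h.W_conj_iff (hJN hg)]
    exact hbW

/-- (3.6) -/
theorem s36 (h : Ctx N W Sig) (t : MaxTrip N W Sig xm y0 Fm D) {s : G}
    (hs : s ∈ normalizer (D : Set G)) (hsD : s ∉ D) (hs2 : s * s ∈ D) :
    ∃ d ∈ D, (s * d) * (s * d) = 1 ∧ s * d ∉ W := by
  obtain ⟨b, hb, hb2, hbW⟩ := t.s35 h
  have hbD : b ∉ D := fun hbD => hbW (t.noI_D h hbD hb2)
  obtain ⟨g, hg, hgd⟩ := t.s34conj h hb hbD (by rw [hb2]; exact one_mem _) hs hsD hs2
  have h1 := norm_conj' hs hgd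
  refine ⟨s⁻¹ * (g * b * g⁻¹ * s⁻¹) * s, h1, ?_, ?_⟩
  · have e : s * (s⁻¹ * (g * b * g⁻¹ * s⁻¹) * s) * (s * (s⁻¹ * (g * b * g⁻¹ * s⁻¹) * s)) =
        g * (b * b) * g⁻¹ := by group
    rw [e, hb2]; group
  · have e : s * (s⁻¹ * (g * b * g⁻¹ * s⁻¹) * s) = g * b * g⁻¹ := by group
    rw [e, ← h.W_conj_iff (t.normD_le h hg)]
    exact hbW

/-- (3.7), the group `U` above `D⟨v⟩` -/
theorem s37U (h : Ctx N W Sig) (t : MaxTrip N W Sig xm y0 Fm D) {v : G}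
    (hv : v ∈ normalizer (D : Set G)) (hv2 : v * v = 1) (hvW : v ∉ W) :
    ∃ U, MaxTwo N U ∧ D ⊔ zpowers v ≤ U ∧ FixS Sig v = FxS Sig U := by
  obtain ⟨hy, hFm, hyF, hD2, hWD, hDF, hc, Fp, hFp, hDFp, hyFp⟩ := t.trip
  have hp1 : IsPGroup 2 (D ⊔ zpowers v : Subgroup G) :=
    isPGroup_sup_zpowers hD2 (fun x hx => norm_conj hv hx) (by rw [hv2]; exact one_mem _)
  have hle : D ⊔ zpowers v ≤ N := by
    refine sup_le (hDF.trans StbS_le) ?_
    rw [zpowers_le]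
    exact t.normD_le h hv
  obtain ⟨U, hU, hEU⟩ := maxTwo_exists hle hp1
  exact ⟨U, hU, hEU, h.Fix_eq hU (hEU ((le_sup_right : zpowers v ≤ _) (mem_zpowers v))) hv2 hvW⟩

/-- (3.7a) -/
theorem s37a (h : Ctx N W Sig) (t : MaxTrip N W Sig xm y0 Fm D) {v d : G}
    (hv : v ∈ normalizer (D : Set G)) (hv2 : v * v = 1) (hvW : v ∉ W) (hd : d ∈ D)
    (hvd2 : (v * d) * (v * d) = 1) (hvdW : v * d ∉ W) : FixS Sig (v * d) = FixS Sig v := by
  obtain ⟨U, hU, hEU, hF⟩ := t.s37U h hv hv2 hvW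
  rw [hF]
  refine h.Fix_eq hU ?_ hvd2 hvdW
  exact mul_mem (hEU ((le_sup_right : zpowers v ≤ _) (mem_zpowers v))) (hEU ((le_sup_left : D ≤ _) hd))

/-- (3.7b) -/
theorem s37b (h : Ctx N W Sig) (t : MaxTrip N W Sig xm y0 Fm D) {v : G}
    (hv : v ∈ normalizer (D : Set G)) (hv2 : v * v = 1) (hvW : v ∉ W) :
    D ≤ StbS N (FixS Sig v) := by
  obtain ⟨U, hU, hEU, hF⟩ := t.s37U h hv hv2 hvW
  rw [hF]
  exact (le_sup_left.trans hEU).trans (h.U_le_Stb hU)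

/-- (3.7c) -/
theorem s37c (h : Ctx N W Sig) (t : MaxTrip N W Sig xm y0 Fm D) {v : G}
    (hv : v ∈ normalizer (D : Set G)) (hv2 : v * v = 1) (hvW : v ∉ W) :
    y0 ∈ FixS Sig v ↔ Tin N Sig y0 (D ⊔ zpowers v) := by
  obtain ⟨U, hU, hEU, hF⟩ := t.s37U h hv hv2 hvW
  have hvD : v ∉ D := fun hvD => hvW (t.noI_D h hvD hv2)
  have hp1 : IsPGroup 2 (D ⊔ zpowers v : Subgroup G) :=
    isPGroup_sup_zpowers t.trip.2.2.2.1 (fun x hx => norm_conj hv hx) (by rw [hv2]; exact one_mem _)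
  have hmem : FixS Sig v ∈ FFS N Sig := ⟨U, hU, hF⟩
  have hle : D ⊔ zpowers v ≤ StbS N (FixS Sig v) := by
    rw [hF]
    exact hEU.trans (h.U_le_Stb hU)
  constructor
  · intro h1
    exact ⟨_, hmem, hle, h1⟩
  · intro hT
    exact t.s32 hp1 (lt_sup hvD) hmem hle hT

omit [Finite G] in
theorem sup_eq {s d : G} (hd : d ∈ D) : D ⊔ zpowers (s * d) = D ⊔ zpowers s := by
  apply le_antisymm
  · refine sup_le le_sup_left ?_
    rw [zpowers_le]
    exact mul_mem ((le_sup_right : zpowers s ≤ _) (mem_zpowers s)) ((le_sup_left : D ≤ _) hd)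
  · refine sup_le le_sup_left ?_
    rw [zpowers_le]
    have h1 := mul_mem ((le_sup_right : zpowers (s * d) ≤ D ⊔ zpowers (s * d)) (mem_zpowers (s * d)))
      ((le_sup_left : D ≤ D ⊔ zpowers (s * d)) (inv_mem hd))
    have e : s * d * d⁻¹ = s := by group
    rwa [e] at h1

/-- (3.8) -/
theorem s38 (h : Ctx N W Sig) (t : MaxTrip N W Sig xm y0 Fm D) :
    ∃ bp ∈ normalizer (D : Set G), ∃ bm ∈ normalizer (D : Set G), bp * bp = 1 ∧ bp ∉ W ∧
      bm * bm = 1 ∧ bm ∉ W ∧ y0 ∈ FixS Sig bp ∧ y0 ∉ FixS Sig bm ∧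
      ∃ o : ℕ, Odd o ∧ (bp * bm) ^ o ∈ D := by
  obtain ⟨⟨p, hp, hpD, hp2, hpT⟩, ⟨m, hm, hmD, hm2, hmT⟩⟩ := t.s34 h
  obtain ⟨d, hd, hpd2, hpdW⟩ := t.s36 h hp hpD hp2
  obtain ⟨e, he, hme2, hmeW⟩ := t.s36 h hm hmD hm2
  have hDn : D ≤ normalizer (D : Set G) := le_normalizer
  have hpd : p * d ∈ normalizer (D : Set G) := mul_mem hp (hDn hd)
  have hme : m * e ∈ normalizer (D : Set G) := mul_mem hm (hDn he)
  have hpdD : p * d ∉ D := fun h' => hpdW (t.noI_D h h' hpd2)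
  have hmeD : m * e ∉ D := fun h' => hmeW (t.noI_D h h' hme2)
  rw [← sup_eq (D := D) (s := p) hd] at hpT
  rw [← sup_eq (D := D) (s := m) he] at hmT
  refine ⟨p * d, hpd, m * e, hme, hpd2, hpdW, hme2, hmeW, ?_, ?_, ?_⟩
  · rw [t.s37c h hpd hpd2 hpdW]
    exact hpT
  · rw [t.s37c h hme hme2 hmeW]
    exact hmT
  · exact (t.s33' h hpd hpdD (by rw [hpd2]; exact one_mem _) hme hmeD (by rw [hme2]; exact one_mem _)
      hpT hmT).1

/-- (3.4) with `d` on the right -/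
theorem s34' (h : Ctx N W Sig) (t : MaxTrip N W Sig xm y0 Fm D) {s s' : G}
    (hs : s ∈ normalizer (D : Set G)) (hsD : s ∉ D) (hs2 : s * s ∈ D)
    (hs' : s' ∈ normalizer (D : Set G)) (hsD' : s' ∉ D) (hs2' : s' * s' ∈ D) :
    ∃ g ∈ normalizer (D : Set G), ∃ d ∈ D, g * s * g⁻¹ = s' * d := by
  obtain ⟨g, hg, h1⟩ := t.s34conj h hs hsD hs2 hs' hsD' hs2'
  refine ⟨g, hg, _, norm_conj' hs' h1, ?_⟩
  group

end MaxTrip

end E1adH58
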