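import Pool.Agent.Lib.MP_1ad17e_al_P.Core
import Pool.Agent.Lib.MP_1ad17e_al_h82.S2b
import Pool.Agent.Lib.MP_1ad17e_al_h58.Sec3b

/-! MP_1ad17e_al: section 3 of the paper, the concrete form. -/

set_option autoImplicit false

namespace E1adP

open Subgroup E1adH58 E1adH59

variable {G : Type*} [Group G]

theorem FxS_eq58 {k : ℕ} {W U : Subgroup G} : FxS (Sg k W) U = Fx k W U := rfl

theorem FixS_eq58 {k : ℕ} {W : Subgroup G} {v : G} : FixS (Sg k W) v = Fi k W v := rfl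

theorem FFS_eq58 {k : ℕ} {W : Subgroup G} : FFS (normalizer (W : Set G)) (Sg k W) = FF k W := rfl

theorem StbS_eq58 {W : Subgroup G} {F : Set G} : StbS (normalizer (W : Set G)) F = Stb W F := by
  ext g
  exact Iff.rfl

variable [Finite G]

theorem ctx58 {n k : ℕ} (hcl : Cls G n) (hnk : n ≤ k) {W : Subgroup G} (hW : Bad k W) :
    Ctx (normalizer (W : Set G)) W (Sg k W) where
  hWN g := mem_normalizer_iff
  hW2 := bad_pgroup hW
  hWgen E hE := by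
    rw [← bad_om hW]
    unfold Om
    rw [closure_le]
    rintro v ⟨hv, hv2⟩
    exact hE v hv hv2
  hSigW y hy := hy.2.1
  hSigc y hy := hy.2.2
  hSigN y hy g hg := (sg_conj hg).1 hy
  h24 U hU := by
    obtain ⟨v, hv, hvI⟩ := s2_4a hW hU
    exact ⟨v, hv, hvI.1, hvI.2.2⟩
  h25 U hU v hv hv2 hvW y hy hyv := by
    have h1 := s2_5 hW hU (v := v) ⟨hv2, hU.1 hv, hvW⟩ hv
    rw [FxS_eq58, ← h1]
    exact ⟨hy, hyv⟩
  h29 X hX hXN hWX y hy hXy := by
    obtain ⟨F, hF, hXF, hyF⟩ := s2_9 hcl hnk hW hX hXN hWX hy hXy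
    refine ⟨F, hF, ?_, hyF⟩
    rw [StbS_eq58]
    exact hXF
  h210 := s2_10 hcl hnk hW

theorem s3 {n k : ℕ} (hcl : Cls G n) (hnk : n ≤ k) {W : Subgroup G} (hW : Bad k W) :
    ∃ (D : Subgroup G) (y0 : G), Core k W D y0 := by
  have h := ctx58 hcl hnk hW
  obtain ⟨xm, y0, Fm, D, t⟩ := h.exists_maxTrip
  obtain ⟨hy, hFm, hyF, hD2, hWD, hDF, hc, Fp, hFp, hDFp, hyFp⟩ := t.trip
  refine ⟨D, y0, ?_⟩
  refine
    { hD := hD2
      hWD := hWD
      hOm := ?_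
      hy0 := hy
      hM4 := ?_
      h34 := ?_
      h36 := ?_
      h37a := ?_
      h37b := ?_
      h38 := ?_
      hU := ?_ }
  · apply le_antisymm
    · unfold Om
      rw [closure_le]
      rintro v ⟨hv, hv2⟩
      exact t.noI_D h hv hv2
    · have h1 := bad_om hW
      calc W = Om W := h1.symm
        _ ≤ Om D := Om_mono hWD
  · intro E hE hEN hEc hcard F hF hEF
    refine t.M4 hE hEc hcard hF ?_
    rw [StbS_eq58]
    exact hEF
  · intro s s' hs hsD hs2 hs' hsD' hs2'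
    exact t.s34' h hs hsD hs2 hs' hsD' hs2'
  · intro s hs hsD hs2
    obtain ⟨d, hd, hd2, hdW⟩ := t.s36 h hs hsD hs2
    refine ⟨d, hd, hd2, ?_, hdW⟩
    exact t.normD_le h (mul_mem hs (le_normalizer hd))
  · intro v hv hvn d hd hvd
    exact t.s37a h hvn hv.1 hv.2.2 hd hvd.1 hvd.2.2
  · intro v hv hvn d hd y hy
    have h1 := t.s37b h hvn hv.1 hv.2.2 hd
    exact (h1.2 y).1 hy
  · obtain ⟨bp, hbp, bm, hbm, hbp2, hbpW, hbm2, hbmW, hF1, hF2, o, ho, ho2⟩ := t.s38 h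
    exact ⟨bp, ⟨hbp2, t.normD_le h hbp, hbpW⟩, bm, ⟨hbm2, t.normD_le h hbm, hbmW⟩, hbp, hbm, hF1, hF2,
      o, ho, ho2⟩
  · obtain ⟨U, hU, hFU, hDU, -⟩ := t.exists_U h hFp hDFp
    refine ⟨U, hU, hDU.le, ?_⟩
    rw [← FxS_eq58, ← hFU]
    exact hyFp

end E1adP
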