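import Pool.Agent.Lib.MP_1ad17e_al_h58.Dih

/-! MP_1ad17e_al: section 3 of the paper, basic facts (2.6)-(2.8). -/

set_option autoImplicit false

namespace E1adH58

open Subgroup

variable {G : Type*} [Group G]

/-- members of `Sig` commuting with all involutions of `U` -/
def FxS (Sig : Set G) (U : Subgroup G) : Set G :=
  {y | y ∈ Sig ∧ ∀ v ∈ U, v * v = 1 → y * v = v * y}

/-- members of `Sig` commuting with `v` -/
def FixS (Sig : Set G) (v : G) : Set G := {y | y ∈ Sig ∧ y * v = v * y}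

def FFS (N : Subgroup G) (Sig : Set G) : Set (Set G) :=
  {F | ∃ U, MaxTwo N U ∧ F = FxS Sig U}

/-- stabiliser in `N` of a set under conjugation -/
def StbS (N : Subgroup G) (F : Set G) : Subgroup G where
  carrier := {g | g ∈ N ∧ ∀ y, y ∈ F ↔ g * y * g⁻¹ ∈ F}
  one_mem' := ⟨one_mem _, fun y => by simp⟩
  mul_mem' := by
    rintro a b ⟨ha, ha'⟩ ⟨hb, hb'⟩
    refine ⟨mul_mem ha hb, fun y => ?_⟩
    have e : a * b * y * (a * b)⁻¹ = a * (b * y * b⁻¹) * a⁻¹ := by group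
    rw [e, ← ha', ← hb']
  inv_mem' := by
    rintro a ⟨ha, ha'⟩
    refine ⟨inv_mem ha, fun y => ?_⟩
    have e : a * (a⁻¹ * y * a⁻¹⁻¹) * a⁻¹ = y := by group
    rw [ha' (a⁻¹ * y * a⁻¹⁻¹), e]

theorem mem_StbS {N : Subgroup G} {F : Set G} {g : G} :
    g ∈ StbS N F ↔ g ∈ N ∧ ∀ y, y ∈ F ↔ g * y * g⁻¹ ∈ F := Iff.rfl

theorem StbS_le {N : Subgroup G} {F : Set G} : StbS N F ≤ N := fun _ h => h.1

/-- hypotheses of section 3 -/
structure Ctx (N W : Subgroup G) (Sig : Set G) : Prop where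
  hWN : ∀ g, g ∈ N ↔ ∀ w, w ∈ W ↔ g * w * g⁻¹ ∈ W
  hW2 : IsPGroup 2 W
  hWgen : ∀ E : Subgroup G, (∀ v ∈ W, v * v = 1 → v ∈ E) → W ≤ E
  hSigW : ∀ y ∈ Sig, y ∈ W
  hSigc : ∀ y ∈ Sig, ∀ w ∈ W, y * w = w * y
  hSigN : ∀ y ∈ Sig, ∀ g ∈ N, g * y * g⁻¹ ∈ Sig
  h24 : ∀ U, MaxTwo N U → ∃ v ∈ U, v * v = 1 ∧ v ∉ W
  h25 : ∀ U, MaxTwo N U → ∀ v ∈ U, v * v = 1 → v ∉ W → ∀ y ∈ Sig, y * v = v * y → y ∈ FxS Sig U
  h29 : ∀ X : Subgroup G, IsPGroup 2 X → X ≤ N → W ≤ X → ∀ y ∈ Sig, (∀ x ∈ X, x * y = y * x) →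
    ∃ F ∈ FFS N Sig, X ≤ StbS N F ∧ y ∈ F
  h210 : ∃ y ∈ Sig, ∃ F ∈ FFS N Sig, y ∉ F

theorem commute_conj_iff {a y g : G} : (g * y * g⁻¹) * (g * a * g⁻¹) = (g * a * g⁻¹) * (g * y * g⁻¹) ↔
    y * a = a * y := by
  have e1 : (g * y * g⁻¹) * (g * a * g⁻¹) = g * (y * a) * g⁻¹ := by group
  have e2 : (g * a * g⁻¹) * (g * y * g⁻¹) = g * (a * y) * g⁻¹ := by group
  rw [e1, e2]
  constructor
  · intro h
    exact mul_left_cancel (mul_right_cancel h)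
  · intro h
    rw [h]

theorem isPGroup_zpowers_of_sq {v : G} (hv : v * v = 1) : IsPGroup 2 (zpowers v) := by
  rintro ⟨x, hx⟩
  obtain ⟨i, rfl⟩ := mem_zpowers_iff.1 hx
  refine ⟨1, ?_⟩
  apply Subtype.ext
  show (v ^ i) ^ (2 ^ 1) = 1
  rw [← zpow_natCast, ← zpow_mul, mul_comm, zpow_mul, zpow_natCast, pow_one, pow_two, hv, one_zpow]

theorem maxTwo_of_conj {N U : Subgroup G} (hU : MaxTwo N U) {g : G} (hg : g ∈ N) :
    MaxTwo N (cj g U) := by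
  obtain ⟨h1, h2, h3⟩ := hU
  refine ⟨?_, isPGroup_cj h2, ?_⟩
  · intro x hx
    rw [mem_cj] at hx
    have h4 := N.mul_mem (N.mul_mem hg (h1 hx)) (N.inv_mem hg)
    have h5 : g * (g⁻¹ * x * g) * g⁻¹ = x := by group
    rwa [h5] at h4
  · intro E hE hE2 hle x hx
    have h4 : cj g⁻¹ E ≤ N := by
      intro z hz
      rw [mem_cj] at hz
      have h5 := N.mul_mem (N.mul_mem (N.inv_mem hg) (hE hz)) hg
      have h6 : g⁻¹ * (g⁻¹⁻¹ * z * g⁻¹) * g = z := by group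
      rwa [h6] at h5
    have h5 : U ≤ cj g⁻¹ E := by
      intro z hz
      rw [mem_cj]
      apply hle
      rw [mem_cj]
      have h6 : g⁻¹ * (g⁻¹⁻¹ * z * g⁻¹) * g = z := by group
      rwa [h6]
    have h6 := h3 _ h4 (isPGroup_cj hE2) h5
    rw [mem_cj]
    apply h6
    rw [mem_cj]
    have h7 : g⁻¹⁻¹ * (g⁻¹ * x * g) * g⁻¹ = x := by group
    rwa [h7]

namespace Ctx

variable {N W : Subgroup G} {Sig : Set G}

theorem W_le_N (h : Ctx N W Sig) : W ≤ N := by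
  intro g hg
  rw [h.hWN]
  intro w
  constructor
  · intro hw
    exact W.mul_mem (W.mul_mem hg hw) (W.inv_mem hg)
  · intro hw
    have h1 := W.mul_mem (W.mul_mem (W.inv_mem hg) hw) hg
    have h2 : g⁻¹ * (g * w * g⁻¹) * g = w := by group
    rwa [h2] at h1

theorem Sig_conj_iff (h : Ctx N W Sig) {g y : G} (hg : g ∈ N) : y ∈ Sig ↔ g * y * g⁻¹ ∈ Sig := by
  constructor
  · intro hy
    exact h.hSigN y hy g hg
  · intro hy
    have h1 := h.hSigN _ hy g⁻¹ (N.inv_mem hg)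
    have h2 : g⁻¹ * (g * y * g⁻¹) * g⁻¹⁻¹ = y := by group
    rwa [h2] at h1

theorem W_conj_iff (h : Ctx N W Sig) {g w : G} (hg : g ∈ N) : w ∈ W ↔ g * w * g⁻¹ ∈ W :=
  (h.hWN g).1 hg w

/-- `Fix` of a conjugate -/
theorem FixS_conj (h : Ctx N W Sig) {g v y : G} (hg : g ∈ N) :
    g * y * g⁻¹ ∈ FixS Sig (g * v * g⁻¹) ↔ y ∈ FixS Sig v := by
  unfold FixS
  simp only [Set.mem_setOf_eq]
  rw [commute_conj_iff, ← h.Sig_conj_iff hg]

theorem FxS_cj (h : Ctx N W Sig) {g y : G} {U : Subgroup G} (hg : g ∈ N) :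
    g * y * g⁻¹ ∈ FxS Sig (cj g U) ↔ y ∈ FxS Sig U := by
  unfold FxS
  simp only [Set.mem_setOf_eq]
  rw [← h.Sig_conj_iff hg]
  constructor
  · rintro ⟨h1, h2⟩
    refine ⟨h1, fun v hv hv2 => ?_⟩
    have h3 := h2 (g * v * g⁻¹) (by
      rw [mem_cj]
      have e : g⁻¹ * (g * v * g⁻¹) * g = v := by group
      rwa [e]) (by
      have e : g * v * g⁻¹ * (g * v * g⁻¹) = g * (v * v) * g⁻¹ := by group
      rw [e, hv2]; group)
    rwa [commute_conj_iff] at h3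
  · rintro ⟨h1, h2⟩
    refine ⟨h1, fun v hv hv2 => ?_⟩
    rw [mem_cj] at hv
    have h3 := h2 _ hv (by
      have e : g⁻¹ * v * g * (g⁻¹ * v * g) = g⁻¹ * (v * v) * g := by group
      rw [e, hv2]; group)
    rw [← commute_conj_iff (g := g)] at h3
    have e : g * (g⁻¹ * v * g) * g⁻¹ = v := by group
    rwa [e] at h3

/-- conjugate of a member of `FF` -/
theorem FF_conj (h : Ctx N W Sig) {g : G} {F : Set G} (hg : g ∈ N) (hF : F ∈ FFS N Sig) :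
    {y | g⁻¹ * y * g ∈ F} ∈ FFS N Sig := by
  obtain ⟨U, hU, rfl⟩ := hF
  refine ⟨cj g U, maxTwo_of_conj hU hg, ?_⟩
  ext y
  rw [Set.mem_setOf_eq]
  rw [← h.FxS_cj (g := g) (U := U) hg]
  have e : g * (g⁻¹ * y * g) * g⁻¹ = y := by group
  rw [e]

theorem FF_sub (_h : Ctx N W Sig) {F : Set G} (hF : F ∈ FFS N Sig) {y : G} (hy : y ∈ F) : y ∈ Sig := by
  obtain ⟨U, hU, rfl⟩ := hF
  exact hy.1

/-- elements of `W` act trivially -/
theorem W_triv (h : Ctx N W Sig) {w y : G} (hw : w ∈ W) (hy : y ∈ Sig) : w * y * w⁻¹ = y := by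
  rw [← h.hSigc y hy w hw, mul_assoc, mul_inv_cancel, mul_one]

theorem W_le_Stb (h : Ctx N W Sig) {F : Set G} (hF : F ∈ FFS N Sig) : W ≤ StbS N F := by
  intro w hw
  refine ⟨h.W_le_N hw, fun y => ?_⟩
  constructor
  · intro hy
    rw [h.W_triv hw (h.FF_sub hF hy)]
    exact hy
  · intro hy
    have h1 : y ∈ Sig := (h.Sig_conj_iff (h.W_le_N hw)).2 (h.FF_sub hF hy)
    rwa [h.W_triv hw h1] at hy

theorem U_le_Stb (h : Ctx N W Sig) {U : Subgroup G} (hU : MaxTwo N U) :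
    U ≤ StbS N (FxS Sig U) := by
  intro g hg
  refine ⟨hU.1 hg, fun y => ?_⟩
  have h1 : cj g U = U := by
    ext x
    rw [mem_cj]
    constructor
    · intro hx
      have h4 := U.mul_mem (U.mul_mem hg hx) (U.inv_mem hg)
      have h5 : g * (g⁻¹ * x * g) * g⁻¹ = x := by group
      rwa [h5] at h4
    · intro hx
      exact U.mul_mem (U.mul_mem (U.inv_mem hg) hx) hg
  have h2 := h.FxS_cj (g := g) (U := U) (y := y) (hU.1 hg)
  rw [h1] at h2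
  exact h2.symm

/-- (2.5) -/
theorem Fix_eq (h : Ctx N W Sig) {U : Subgroup G} (hU : MaxTwo N U) {v : G} (hv : v ∈ U)
    (hv2 : v * v = 1) (hvW : v ∉ W) : FixS Sig v = FxS Sig U := by
  ext y
  constructor
  · rintro ⟨h1, h2⟩
    exact h.h25 U hU v hv hv2 hvW y h1 h2
  · rintro ⟨h1, h2⟩
    exact ⟨h1, h2 v hv hv2⟩

/-- (2.8a) -/
theorem exists_FF (h : Ctx N W Sig) {E : Subgroup G} (hE : E ≤ N) (h2 : IsPGroup 2 E) :
    ∃ F ∈ FFS N Sig, E ≤ StbS N F := by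
  obtain ⟨U, hU, hEU⟩ := maxTwo_exists hE h2
  exact ⟨_, ⟨U, hU, rfl⟩, hEU.trans (h.U_le_Stb hU)⟩

theorem maxTwo_Stb (h : Ctx N W Sig) {U : Subgroup G} (hU : MaxTwo N U) :
    MaxTwo (StbS N (FxS Sig U)) U := by
  refine ⟨h.U_le_Stb hU, hU.2.1, fun E hE h2 hle => hU.2.2 E (hE.trans StbS_le) h2 hle⟩

/-- a maximal 2-subgroup of the stabiliser of `F` -/
theorem of_maxTwo_Stb [Finite G] (h : Ctx N W Sig) {U : Subgroup G} {F : Set G} (hF : F ∈ FFS N Sig)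
    (hU : MaxTwo (StbS N F) U) : MaxTwo N U ∧ F = FxS Sig U := by
  obtain ⟨U', hU', rfl⟩ := hF
  obtain ⟨g, hg, rfl⟩ := maxTwo_conj' (h.maxTwo_Stb hU') hU
  have hgN : g ∈ N := hg.1
  refine ⟨maxTwo_of_conj hU' hgN, ?_⟩
  ext y
  have h1 := h.FxS_cj (g := g) (U := U') (y := g⁻¹ * y * g) hgN
  have e : g * (g⁻¹ * y * g) * g⁻¹ = y := by group
  rw [e] at h1
  rw [h1]
  have h2 := hg.2 (g⁻¹ * y * g)
  rw [e] at h2
  exact h2.symm

/-- (2.7) -/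
theorem Stb_iff [Finite G] (h : Ctx N W Sig) {F : Set G} (hF : F ∈ FFS N Sig) {v : G} (hvN : v ∈ N)
    (hv2 : v * v = 1) (hvW : v ∉ W) : v ∈ StbS N F ↔ FixS Sig v = F := by
  constructor
  · intro hv
    obtain ⟨U, hU, hvU⟩ := maxTwo_exists (N := StbS N F) (E := zpowers v) (by rwa [zpowers_le])
      (isPGroup_zpowers_of_sq hv2)
    obtain ⟨hU', hFU⟩ := h.of_maxTwo_Stb hF hU
    rw [h.Fix_eq hU' (hvU (mem_zpowers v)) hv2 hvW, ← hFU]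
  · rintro rfl
    obtain ⟨U, hU, hvU⟩ := maxTwo_exists (N := N) (E := zpowers v) (by rwa [zpowers_le])
      (isPGroup_zpowers_of_sq hv2)
    rw [h.Fix_eq hU (hvU (mem_zpowers v)) hv2 hvW]
    exact h.U_le_Stb hU (hvU (mem_zpowers v))

theorem Fix_mem_FF [Finite G] (h : Ctx N W Sig) {v : G} (hvN : v ∈ N)
    (hv2 : v * v = 1) (hvW : v ∉ W) : FixS Sig v ∈ FFS N Sig := by
  obtain ⟨U, hU, hvU⟩ := maxTwo_exists (N := N) (E := zpowers v) (by rwa [zpowers_le])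
      (isPGroup_zpowers_of_sq hv2)
  exact ⟨U, hU, h.Fix_eq hU (hvU (mem_zpowers v)) hv2 hvW⟩

/-- (2.8b) -/
theorem noI [Finite G] (h : Ctx N W Sig) {E : Subgroup G} {F F' : Set G} (hF : F ∈ FFS N Sig)
    (hF' : F' ∈ FFS N Sig) (hne : F ≠ F') (hE : E ≤ StbS N F) (hE' : E ≤ StbS N F')
    {v : G} (hv : v ∈ E) (hv2 : v * v = 1) : v ∈ W := by
  by_contra hvW
  have h1 := (h.Stb_iff hF (hE hv).1 hv2 hvW).1 (hE hv)
  have h2 := (h.Stb_iff hF' (hE' hv).1 hv2 hvW).1 (hE' hv)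
  exact hne (h1.symm.trans h2)

end Ctx

end E1adH58
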