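import Pool.Agent.Lib.MP_1ad17e_al_h58.Ctx

/-! MP_1ad17e_al: section 3 of the paper. -/

set_option autoImplicit false

namespace E1adH58

open Subgroup

variable {G : Type*} [Group G]

/-- triples of section 3 -/
def Trip (N W : Subgroup G) (Sig : Set G) (xm : ℕ) (y : G) (F : Set G) (D : Subgroup G) : Prop :=
  y ∈ Sig ∧ F ∈ FFS N Sig ∧ y ∉ F ∧ IsPGroup 2 D ∧ W ≤ D ∧ D ≤ StbS N F ∧
    Nat.card (D ⊓ centralizer {y} : Subgroup G) = xm ∧ ∃ Fp ∈ FFS N Sig, D ≤ StbS N Fp ∧ y ∈ Fp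

/-- a lexicographically maximal triple -/
structure MaxTrip (N W : Subgroup G) (Sig : Set G) (xm : ℕ) (y0 : G) (Fm : Set G) (D : Subgroup G) :
    Prop where
  trip : Trip N W Sig xm y0 Fm D
  hA : ∀ y ∈ Sig, ∀ F ∈ FFS N Sig, y ∉ F → ∀ X : Subgroup G, IsPGroup 2 X → X ≤ StbS N F →
    (∀ x ∈ X, x * y = y * x) → Nat.card X ≤ xm
  hB : ∀ y' F' D', Trip N W Sig xm y' F' D' → Nat.card D' ≤ Nat.card D

theorem mem_cent {y x : G} : x ∈ centralizer ({y} : Set G) ↔ x * y = y * x := by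
  rw [mem_centralizer_singleton_iff]

theorem sup_W_pgroup [Finite G] {W X : Subgroup G} (hW : IsPGroup 2 W) (hX : IsPGroup 2 X)
    (hn : ∀ x ∈ X, ∀ w ∈ W, x * w * x⁻¹ ∈ W) : IsPGroup 2 (X ⊔ W : Subgroup G) := by
  refine hX.to_sup_of_normal_right' hW ?_
  intro x hx
  exact mem_normalizer_of (hn x hx)

variable [Finite G] {N W : Subgroup G} {Sig : Set G}

theorem Ctx.exists_maxTrip (h : Ctx N W Sig) : ∃ xm y0 Fm D, MaxTrip N W Sig xm y0 Fm D := by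
  obtain ⟨S, hS⟩ : ∃ S : Set ℕ, S = {n | ∃ y ∈ Sig, ∃ F ∈ FFS N Sig, y ∉ F ∧ ∃ X : Subgroup G,
    IsPGroup 2 X ∧ X ≤ StbS N F ∧ (∀ x ∈ X, x * y = y * x) ∧ Nat.card X = n} := ⟨_, rfl⟩
  have hmem : ∀ n, n ∈ S ↔ ∃ y ∈ Sig, ∃ F ∈ FFS N Sig, y ∉ F ∧ ∃ X : Subgroup G,
    IsPGroup 2 X ∧ X ≤ StbS N F ∧ (∀ x ∈ X, x * y = y * x) ∧ Nat.card X = n := by
    intro n
    rw [hS]
    exact Iff.rfl
  have hne : S.Nonempty := by
    obtain ⟨y, hy, F, hF, hyF⟩ := h.h210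
    refine ⟨_, (hmem _).2 ⟨y, hy, F, hF, hyF, ⊥, IsPGroup.of_bot, bot_le, ?_, rfl⟩⟩
    intro x hx
    rw [mem_bot] at hx
    rw [hx, one_mul, mul_one]
  have hbdd : BddAbove S := by
    refine ⟨Nat.card G, ?_⟩
    intro n hn
    obtain ⟨y, hy, F, hF, hyF, X, -, -, -, rfl⟩ := (hmem _).1 hn
    exact Subgroup.card_le_card_group X
  obtain ⟨xm, hxm⟩ : ∃ xm, xm = sSup S := ⟨_, rfl⟩
  have hxmem := Nat.sSup_mem hne hbdd
  rw [← hxm] at hxmem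
  have hA : ∀ y ∈ Sig, ∀ F ∈ FFS N Sig, y ∉ F → ∀ X : Subgroup G, IsPGroup 2 X → X ≤ StbS N F →
      (∀ x ∈ X, x * y = y * x) → Nat.card X ≤ xm := by
    intro y hy F hF hyF X h1 h2 h3
    rw [hxm]
    exact le_csSup hbdd ((hmem _).2 ⟨y, hy, F, hF, hyF, X, h1, h2, h3, rfl⟩)
  have htr : ∃ y F D, Trip N W Sig xm y F D := by
    obtain ⟨y, hy, F, hF, hyF, X, hX2, hXF, hXy, hXc⟩ := (hmem _).1 hxmem
    have hXN : X ≤ N := hXF.trans StbS_le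
    have hp : IsPGroup 2 (X ⊔ W : Subgroup G) :=
      sup_W_pgroup h.hW2 hX2 (fun x hx w hw => (h.W_conj_iff (hXN hx)).1 hw)
    have hst : X ⊔ W ≤ StbS N F := sup_le hXF (h.W_le_Stb hF)
    have hc' : X ⊔ W ≤ centralizer ({y} : Set G) := by
      refine sup_le ?_ ?_
      · intro x hx
        rw [mem_cent]
        exact hXy x hx
      · intro x hx
        rw [mem_cent]
        exact (h.hSigc y hy x hx).symm
    have hc : ∀ x ∈ (X ⊔ W : Subgroup G), x * y = y * x := by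
      intro x hx
      exact mem_cent.1 (hc' hx)
    have h1 := hA y hy F hF hyF _ hp hst hc
    have h2 : X = X ⊔ W := Subgroup.eq_of_le_of_card_ge le_sup_left (by rw [hXc]; exact h1)
    have hWX : W ≤ X := by
      rw [h2]; exact le_sup_right
    obtain ⟨Fp, hFp, hXFp, hyFp⟩ := h.h29 X hX2 hXN hWX y hy hXy
    refine ⟨y, F, X, hy, hF, hyF, hX2, hWX, hXF, ?_, Fp, hFp, hXFp, hyFp⟩
    have h3 : (X ⊓ centralizer {y} : Subgroup G) = X := by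
      rw [inf_eq_left]
      intro x hx
      rw [mem_cent]
      exact hXy x hx
    rw [h3, hXc]
  -- maximal order of `D`
  obtain ⟨R, hR⟩ : ∃ R : Set ℕ, R = {n | ∃ y F D, Trip N W Sig xm y F D ∧ Nat.card D = n} := ⟨_, rfl⟩
  have hmemR : ∀ n, n ∈ R ↔ ∃ y F D, Trip N W Sig xm y F D ∧ Nat.card D = n := by
    intro n
    rw [hR]
    exact Iff.rfl
  have hneR : R.Nonempty := by
    obtain ⟨y, F, D, ht⟩ := htr
    exact ⟨_, (hmemR _).2 ⟨y, F, D, ht, rfl⟩⟩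
  have hbddR : BddAbove R := by
    refine ⟨Nat.card G, ?_⟩
    intro n hn
    obtain ⟨y, F, D, -, rfl⟩ := (hmemR _).1 hn
    exact Subgroup.card_le_card_group D
  obtain ⟨y0, Fm, D, ht, hcard⟩ := (hmemR _).1 (Nat.sSup_mem hneR hbddR)
  refine ⟨xm, y0, Fm, D, ht, hA, ?_⟩
  intro y' F' D' ht'
  rw [hcard]
  exact le_csSup hbddR ((hmemR _).2 ⟨y', F', D', ht', rfl⟩)

/-- `y0` is in the common trace -/
def Tin (N : Subgroup G) (Sig : Set G) (y0 : G) (E : Subgroup G) : Prop :=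
  ∃ F ∈ FFS N Sig, E ≤ StbS N F ∧ y0 ∈ F

/-- conjugacy modulo `D` -/
def CjD (D : Subgroup G) (s t : G) : Prop :=
  ∃ g ∈ normalizer (D : Set G), g * s * g⁻¹ * t⁻¹ ∈ D

omit [Finite G] in
theorem norm_conj {D : Subgroup G} {g z : G} (hg : g ∈ normalizer (D : Set G)) (hz : z ∈ D) :
    g * z * g⁻¹ ∈ D := (mem_normalizer_iff.1 hg z).1 hz

omit [Finite G] in
theorem norm_conj' {D : Subgroup G} {g z : G} (hg : g ∈ normalizer (D : Set G)) (hz : z ∈ D) :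
    g⁻¹ * z * g ∈ D := by
  have h := norm_conj (inv_mem hg) hz
  rwa [inv_inv] at h

omit [Finite G] in
theorem CjD.symm {D : Subgroup G} {s t : G} (h : CjD D s t) : CjD D t s := by
  obtain ⟨g, hg, h1⟩ := h
  refine ⟨g⁻¹, inv_mem hg, ?_⟩
  have h2 := norm_conj' hg (D.inv_mem h1)
  have e : g⁻¹ * (g * s * g⁻¹ * t⁻¹)⁻¹ * g = g⁻¹ * t * g⁻¹⁻¹ * s⁻¹ := by group
  rwa [e] at h2

omit [Finite G] in
theorem CjD.trans {D : Subgroup G} {s t u : G} (h : CjD D s t) (h' : CjD D t u) : CjD D s u := by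
  obtain ⟨g, hg, h1⟩ := h
  obtain ⟨k, hk, h2⟩ := h'
  refine ⟨k * g, mul_mem hk hg, ?_⟩
  have h3 := D.mul_mem (norm_conj hk h1) h2
  have e : k * (g * s * g⁻¹ * t⁻¹) * k⁻¹ * (k * t * k⁻¹ * u⁻¹) = k * g * s * (k * g)⁻¹ * u⁻¹ := by group
  rwa [e] at h3

namespace MaxTrip

variable {xm : ℕ} {y0 : G} {Fm : Set G} {D : Subgroup G}

omit [Finite G] in
theorem M4 (t : MaxTrip N W Sig xm y0 Fm D) {E : Subgroup G} (hE : IsPGroup 2 E)
    (hc : ∀ x ∈ E, x * y0 = y0 * x) (hcard : Nat.card (D ⊓ centralizer {y0} : Subgroup G) < Nat.card E)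
    {F : Set G} (hF : F ∈ FFS N Sig) (hEF : E ≤ StbS N F) : y0 ∈ F := by
  by_contra hy
  have h1 := t.hA y0 t.trip.1 F hF hy E hE hEF hc
  have h2 := t.trip.2.2.2.2.2.2.1
  omega

theorem noI_D (h : Ctx N W Sig) (t : MaxTrip N W Sig xm y0 Fm D) {v : G} (hv : v ∈ D)
    (hv2 : v * v = 1) : v ∈ W := by
  obtain ⟨hy, hF, hyF, hD2, hWD, hDF, hc, Fp, hFp, hDFp, hyFp⟩ := t.trip
  refine h.noI hF hFp ?_ hDF hDFp hv hv2
  rintro rfl
  exact hyF hyFp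

/-- a subgroup between `W` and `D` has its normaliser in `N` -/
theorem norm_le (h : Ctx N W Sig) (t : MaxTrip N W Sig xm y0 Fm D) {X : Subgroup G} (hWX : W ≤ X)
    (hXD : X ≤ D) {g : G} (hg : g ∈ normalizer (X : Set G)) : g ∈ N := by
  have h1 : W ≤ W.comap (MulAut.conj g).toMonoidHom := by
    apply h.hWgen
    intro v hv hv2
    rw [mem_comap]
    have h2 : g * v * g⁻¹ ∈ X := norm_conj hg (hWX hv)
    have h3 : g * v * g⁻¹ * (g * v * g⁻¹) = 1 := by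
      have e : g * v * g⁻¹ * (g * v * g⁻¹) = g * (v * v) * g⁻¹ := by group
      rw [e, hv2]; group
    exact t.noI_D h (hXD h2) h3
  have h2 : g ∈ normalizer (W : Set G) := by
    apply mem_normalizer_of
    intro z hz
    exact h1 hz
  rw [h.hWN]
  exact mem_normalizer_iff.1 h2

theorem normD_le (h : Ctx N W Sig) (t : MaxTrip N W Sig xm y0 Fm D) {g : G}
    (hg : g ∈ normalizer (D : Set G)) : g ∈ N :=
  t.norm_le h t.trip.2.2.2.2.1 le_rfl hg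

/-- (3.2) -/
theorem s32 (t : MaxTrip N W Sig xm y0 Fm D) {E : Subgroup G} (hE : IsPGroup 2 E) (hDE : D < E)
    {F : Set G} (hF : F ∈ FFS N Sig) (hEF : E ≤ StbS N F) (hT : Tin N Sig y0 E) : y0 ∈ F := by
  obtain ⟨hy, hFm, hyF, hD2, hWD, hDF, hc, Fp, hFp, hDFp, hyFp⟩ := t.trip
  obtain ⟨F', hF', hEF', hyF'⟩ := hT
  by_contra hyn
  have h1 : Nat.card (E ⊓ centralizer {y0} : Subgroup G) ≤ xm := by
    refine t.hA y0 hy F hF hyn _ (hE.to_le inf_le_left) (inf_le_left.trans hEF) ?_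
    intro x hx
    exact mem_cent.1 hx.2
  have h2 : xm ≤ Nat.card (E ⊓ centralizer {y0} : Subgroup G) := by
    rw [← hc]
    exact Subgroup.card_le_of_le (inf_le_inf_right _ hDE.le)
  have h3 := t.hB y0 F E ⟨hy, hF, hyn, hE, hWD.trans hDE.le, hEF, le_antisymm h1 h2, F', hF', hEF', hyF'⟩
  have h4 : D = E := Subgroup.eq_of_le_of_card_ge hDE.le h3
  exact hDE.ne h4

/-- the group `D⟨s⟩` -/
theorem lt_sup {s : G} (hsD : s ∉ D) : D < D ⊔ zpowers s := by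
  refine lt_of_le_of_ne le_sup_left ?_
  intro he
  apply hsD
  rw [he]
  exact (le_sup_right : zpowers s ≤ _) (mem_zpowers s)

/-- (3.3) -/
theorem s33 (h : Ctx N W Sig) (t : MaxTrip N W Sig xm y0 Fm D) {s1 s2 z : G}
    (h1 : s1 ∈ normalizer (D : Set G)) (h1D : s1 ∉ D) (h12 : s1 * s1 ∈ D)
    (h2 : s2 ∈ normalizer (D : Set G)) (h2D : s2 ∉ D) (h22 : s2 * s2 ∈ D)
    (hz : z ∈ normalizer (D : Set G)) (hzD : z ∉ D) (hz2 : z * z ∈ D)
    (hz1 : z * s1 * z⁻¹ * s1⁻¹ ∈ D) (hzs2 : z * s2 * z⁻¹ * s2⁻¹ ∈ D)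
    (hT : Tin N Sig y0 (D ⊔ zpowers s1)) : Tin N Sig y0 (D ⊔ zpowers s2) := by
  have hD2 : IsPGroup 2 D := t.trip.2.2.2.1
  have hDN : D ≤ N := t.trip.2.2.2.2.2.1.trans StbS_le
  have key : ∀ s : G, s ∈ normalizer (D : Set G) → s ∉ D → s * s ∈ D → z * s * z⁻¹ * s⁻¹ ∈ D →
      (Tin N Sig y0 (D ⊔ zpowers s) ↔ Tin N Sig y0 (D ⊔ zpowers z)) := by
    intro s hs hsD hs2 hzs
    have hp1 : IsPGroup 2 (D ⊔ zpowers s : Subgroup G) :=
      isPGroup_sup_zpowers hD2 (fun x hx => norm_conj hs hx) hs2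
    have hpz : IsPGroup 2 (D ⊔ zpowers z : Subgroup G) :=
      isPGroup_sup_zpowers hD2 (fun x hx => norm_conj hz hx) hz2
    have hle : D ⊔ zpowers s ≤ (D ⊔ zpowers s).comap (MulAut.conj z).toMonoidHom := by
      refine sup_le ?_ ?_
      · intro x hx
        exact (le_sup_left : D ≤ _) (norm_conj hz hx)
      · rw [zpowers_le]
        show z * s * z⁻¹ ∈ D ⊔ zpowers s
        have h3 := mul_mem ((le_sup_left : D ≤ D ⊔ zpowers s) hzs)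
          ((le_sup_right : zpowers s ≤ D ⊔ zpowers s) (mem_zpowers s))
        have e : z * s * z⁻¹ * s⁻¹ * s = z * s * z⁻¹ := by group
        rwa [e] at h3
    have hp2 : IsPGroup 2 (D ⊔ zpowers s ⊔ zpowers z : Subgroup G) :=
      isPGroup_sup_zpowers hp1 (fun x hx => hle hx) ((le_sup_left : D ≤ _) hz2)
    have hN : D ⊔ zpowers s ⊔ zpowers z ≤ N := by
      refine sup_le (sup_le hDN ?_) ?_
      · rw [zpowers_le]; exact t.normD_le h hs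
      · rw [zpowers_le]; exact t.normD_le h hz
    obtain ⟨F, hF, hEF⟩ := h.exists_FF hN hp2
    have hs' : D ⊔ zpowers s ≤ StbS N F := le_sup_left.trans hEF
    have hz' : D ⊔ zpowers z ≤ StbS N F :=
      (sup_le (le_sup_left.trans le_sup_left) le_sup_right).trans hEF
    constructor
    · intro hT1
      have h4 := t.s32 hp1 (lt_sup hsD) hF hs' hT1
      exact ⟨F, hF, hz', h4⟩
    · intro hT1
      have h4 := t.s32 hpz (lt_sup hzD) hF hz' hT1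
      exact ⟨F, hF, hs', h4⟩
  rw [key s2 h2 h2D h22 hzs2, ← key s1 h1 h1D h12 hz1]
  exact hT

/-- (3.3) : different traces -/
theorem s33' (h : Ctx N W Sig) (t : MaxTrip N W Sig xm y0 Fm D) {s1 s2 : G}
    (h1 : s1 ∈ normalizer (D : Set G)) (h1D : s1 ∉ D) (h12 : s1 * s1 ∈ D)
    (h2 : s2 ∈ normalizer (D : Set G)) (h2D : s2 ∉ D) (h22 : s2 * s2 ∈ D)
    (hT1 : Tin N Sig y0 (D ⊔ zpowers s1)) (hT2 : ¬ Tin N Sig y0 (D ⊔ zpowers s2)) :
    (∃ o : ℕ, Odd o ∧ (s1 * s2) ^ o ∈ D) ∧ CjD D s1 s2 := by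
  rcases dih_mod (D := D) (s := s1) (t := s2) (fun x hx => norm_conj h1 hx)
    (fun x hx => norm_conj h2 hx) h12 h22 with ⟨e, he1, he2, he3, he4⟩ | ⟨ho, e, he⟩
  · exfalso
    apply hT2
    exact t.s33 h h1 h1D h12 h2 h2D h22 (pow_mem (mul_mem h1 h2) e) he1 he2 he3 he4 hT1
  · exact ⟨ho, (s1 * s2) ^ e, pow_mem (mul_mem h1 h2) e, he⟩

/-- the group `U` above `D` with given `F` -/
theorem exists_U (h : Ctx N W Sig) (t : MaxTrip N W Sig xm y0 Fm D) {F : Set G} (hF : F ∈ FFS N Sig)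
    (hDF : D ≤ StbS N F) : ∃ U, MaxTwo N U ∧ F = FxS Sig U ∧ D < U ∧
      ∃ v ∈ U, v * v = 1 ∧ v ∉ W := by
  obtain ⟨U, hU, hDU⟩ := maxTwo_exists hDF t.trip.2.2.2.1
  obtain ⟨hU', hFU⟩ := h.of_maxTwo_Stb hF hU
  obtain ⟨v, hv, hv2, hvW⟩ := h.h24 U hU'
  refine ⟨U, hU', hFU, lt_of_le_of_ne hDU ?_, v, hv, hv2, hvW⟩
  rintro rfl
  exact hvW (t.noI_D h hv hv2)

theorem exists_s (h : Ctx N W Sig) (t : MaxTrip N W Sig xm y0 Fm D) {F : Set G} (hF : F ∈ FFS N Sig)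
    (hDF : D ≤ StbS N F) : ∃ s ∈ normalizer (D : Set G), s ∉ D ∧ s * s ∈ D ∧
      D ⊔ zpowers s ≤ StbS N F := by
  obtain ⟨U, hU, hFU, hDU, -⟩ := t.exists_U h hF hDF
  obtain ⟨s, hsU, hsD, hs2, hs⟩ := exists_normalizing hU.2.1 hDU
  refine ⟨s, mem_normalizer_iff.2 hs, hsD, hs2, ?_⟩
  rw [hFU]
  refine le_trans ?_ (h.U_le_Stb hU)
  exact sup_le hDU.le (by rwa [zpowers_le])

/-- (3.4), the elements `s_+`, `s_-` -/
theorem s34 (h : Ctx N W Sig) (t : MaxTrip N W Sig xm y0 Fm D) :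
    (∃ s ∈ normalizer (D : Set G), s ∉ D ∧ s * s ∈ D ∧ Tin N Sig y0 (D ⊔ zpowers s)) ∧
    (∃ s ∈ normalizer (D : Set G), s ∉ D ∧ s * s ∈ D ∧ ¬ Tin N Sig y0 (D ⊔ zpowers s)) := by
  obtain ⟨hy, hFm, hyF, hD2, hWD, hDF, hc, Fp, hFp, hDFp, hyFp⟩ := t.trip
  constructor
  · obtain ⟨s, hs, hsD, hs2, hle⟩ := t.exists_s h hFp hDFp
    exact ⟨s, hs, hsD, hs2, Fp, hFp, hle, hyFp⟩
  · obtain ⟨s, hs, hsD, hs2, hle⟩ := t.exists_s h hFm hDF
    refine ⟨s, hs, hsD, hs2, ?_⟩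
    intro hT
    have hp1 : IsPGroup 2 (D ⊔ zpowers s : Subgroup G) :=
      isPGroup_sup_zpowers hD2 (fun x hx => norm_conj hs hx) hs2
    exact hyF (t.s32 hp1 (lt_sup hsD) hFm hle hT)

/-- (3.4): all involutions of `M / D` are conjugate -/
theorem s34conj (h : Ctx N W Sig) (t : MaxTrip N W Sig xm y0 Fm D) {s s' : G}
    (hs : s ∈ normalizer (D : Set G)) (hsD : s ∉ D) (hs2 : s * s ∈ D)
    (hs' : s' ∈ normalizer (D : Set G)) (hsD' : s' ∉ D) (hs2' : s' * s' ∈ D) : CjD D s s' := by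
  obtain ⟨⟨p, hp, hpD, hp2, hpT⟩, ⟨m, hm, hmD, hm2, hmT⟩⟩ := t.s34 h
  have hpm : CjD D p m := (t.s33' h hp hpD hp2 hm hmD hm2 hpT hmT).2
  have key : ∀ x : G, x ∈ normalizer (D : Set G) → x ∉ D → x * x ∈ D → CjD D x p := by
    intro x hx hxD hx2
    by_cases hT : Tin N Sig y0 (D ⊔ zpowers x)
    · exact (t.s33' h hx hxD hx2 hm hmD hm2 hT hmT).2.trans hpm.symm
    · exact (t.s33' h hp hpD hp2 hx hxD hx2 hpT hT).2.symm
  exact (key s hs hsD hs2).trans (key s' hs' hsD' hs2').symm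

end MaxTrip

end E1adH58
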